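import Pool.Agent.X17.DD.Rec

/-!
# Asymptotics of the number of permutations without double descents
-/

set_option autoImplicit false

namespace Pool.Agent.X17.DD

open Equiv Finset Filter Topology

/-- the radius of convergence -/
noncomputable def x0 : ℝ := 2 * Real.pi / (3 * Real.sqrt 3)

lemma sqrt3_lt : Real.sqrt 3 < 1.74 := by
  rw [Real.sqrt_lt' (by norm_num)]; norm_num

lemma sqrt3_gt : 1.73 < Real.sqrt 3 := by
  rw [Real.lt_sqrt (by norm_num)]; norm_num

lemma x0_ge : 1 ≤ x0 := by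
  unfold x0
  rw [le_div_iff₀ (by have := sqrt3_gt; positivity)]
  have h1 := sqrt3_lt
  have h2 := Real.pi_gt_d2
  linarith

lemma x0_le : x0 ≤ 5 / 4 := by
  unfold x0
  rw [div_le_iff₀ (by have := sqrt3_gt; positivity)]
  have h1 := sqrt3_gt
  have h2 := Real.pi_lt_d2
  linarith

lemma x0_pos : 0 < x0 := lt_of_lt_of_le one_pos x0_ge

/-- the coefficients of the entire function with zero `x0`, times the powers of `x0` -/
noncomputable def gam (k : ℕ) : ℝ := (sg k : ℝ) * (x0 ^ k / k.factorial)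

lemma sg_abs (k : ℕ) : |(sg k : ℝ)| ≤ 1 := by
  unfold sg
  split_ifs <;> simp

lemma gam_abs (k : ℕ) : |gam k| ≤ x0 ^ k / k.factorial := by
  unfold gam
  have h : 0 ≤ x0 ^ k / k.factorial := by have := x0_pos; positivity
  rw [abs_mul, abs_of_nonneg h]
  calc |(sg k : ℝ)| * (x0 ^ k / k.factorial) ≤ 1 * (x0 ^ k / k.factorial) :=
        mul_le_mul_of_nonneg_right (sg_abs k) h
    _ = _ := one_mul _

/-- the third root of unity -/
noncomputable def om : ℂ := -(1 / 2) + (Real.sqrt 3 / 2 : ℝ) * Complex.I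

lemma sqrt3_sq : (Real.sqrt 3) ^ 2 = 3 := Real.sq_sqrt (by norm_num)

lemma om_sq : om ^ 2 = -(1 / 2) - (Real.sqrt 3 / 2 : ℝ) * Complex.I := by
  unfold om
  have h : ((Real.sqrt 3 : ℝ) : ℂ) ^ 2 = 3 := by
    rw [← Complex.ofReal_pow, sqrt3_sq]; norm_num
  have hI : Complex.I ^ 2 = -1 := Complex.I_sq
  push_cast
  linear_combination (1 / 4 : ℂ) * Complex.I ^ 2 * h + (3 / 4 : ℂ) * hI

lemma om_cube : om ^ 3 = 1 := by
  rw [pow_succ, om_sq]
  unfold om
  have h : ((Real.sqrt 3 : ℝ) : ℂ) ^ 2 = 3 := by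
    rw [← Complex.ofReal_pow, sqrt3_sq]; norm_num
  have hI : Complex.I ^ 2 = -1 := Complex.I_sq
  push_cast
  linear_combination (-(1 / 4 : ℂ)) * Complex.I ^ 2 * h + (-(3 / 4 : ℂ)) * hI

noncomputable def cc : ℂ := 1 + ((Real.sqrt 3)⁻¹ : ℝ) * Complex.I

lemma cc_om (k : ℕ) : (cc * om ^ k).re = sg k := by
  have h0 : Real.sqrt 3 ≠ 0 := by have := sqrt3_gt; intro h; rw [h] at this; norm_num at this
  have h1 : om ^ k = om ^ (k % 3) := by
    conv_lhs => rw [← Nat.div_add_mod k 3, pow_add, pow_mul, om_cube, one_pow, one_mul]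
  rw [h1]
  unfold sg
  have h2 : k % 3 = 0 ∨ k % 3 = 1 ∨ k % 3 = 2 := by omega
  rcases h2 with h | h | h
  · rw [h]; unfold cc; simp
  · rw [h]; unfold cc om
    simp
    field_simp
    norm_num
  · rw [h, om_sq]; unfold cc
    simp
    field_simp
    norm_num

lemma hasSum_gam : HasSum gam 0 := by
  have h1 := NormedSpace.expSeries_div_hasSum_exp (𝔸 := ℂ) (om * x0)
  rw [← Complex.exp_eq_exp_ℂ] at h1
  have h2 := (h1.mul_left cc)
  have h3 := Complex.hasSum_re h2
  have h4 : (fun k : ℕ => (cc * ((om * x0) ^ k / (k.factorial : ℂ))).re) = gam := by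
    funext k
    unfold gam
    have h5 : cc * ((om * x0) ^ k / (k.factorial : ℂ)) =
        ((x0 ^ k / k.factorial : ℝ) : ℂ) * (cc * om ^ k) := by
      push_cast
      rw [mul_pow]
      ring
    rw [h5, Complex.re_ofReal_mul, cc_om, mul_comm]
  rw [h4] at h3
  have h6 : (cc * Complex.exp (om * x0)).re = 0 := by
    have h0 : Real.sqrt 3 ≠ 0 := by have := sqrt3_gt; intro h; rw [h] at this; norm_num at this
    have e1 : om * x0 = ((-(x0 / 2) : ℝ) : ℂ) + ((Real.pi / 3 : ℝ) : ℂ) * Complex.I := by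
      unfold om
      have e2 : Real.sqrt 3 / 2 * x0 = Real.pi / 3 := by
        unfold x0
        field_simp
      have e3 : ((Real.sqrt 3 / 2 : ℝ) : ℂ) * (x0 : ℂ) = ((Real.pi / 3 : ℝ) : ℂ) := by
        rw [← Complex.ofReal_mul, e2]
      rw [← e3]
      push_cast
      ring
    rw [e1, Complex.exp_add, ← Complex.ofReal_exp, Complex.exp_mul_I, ← Complex.ofReal_cos,
      ← Complex.ofReal_sin, Real.cos_pi_div_three, Real.sin_pi_div_three]
    have e4 : cc * (((Real.exp (-(x0 / 2)) : ℝ) : ℂ) * (((1 / 2 : ℝ) : ℂ) +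
        ((Real.sqrt 3 / 2 : ℝ) : ℂ) * Complex.I)) = ((Real.exp (-(x0 / 2)) : ℝ) : ℂ) *
        (cc * (((1 / 2 : ℝ) : ℂ) + ((Real.sqrt 3 / 2 : ℝ) : ℂ) * Complex.I)) := by ring
    rw [e4, Complex.re_ofReal_mul]
    unfold cc
    simp
    field_simp
    norm_num
  rw [h6] at h3
  exact h3

/-- the normalised numbers -/
noncomputable def u (n : ℕ) : ℝ := (a n : ℝ) / n.factorial * x0 ^ n

lemma u_nonneg (n : ℕ) : 0 ≤ u n := by
  unfold u; have := x0_pos; positivity

lemma conv (n : ℕ) : ∑ p ∈ antidiagonal n, gam p.1 * u p.2 = if n = 0 then 1 else 0 := by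
  split_ifs with h
  · subst h
    simp [gam, u, a_zero, sg]
  · have h1 := a_rec (n := n) (by omega)
    rw [Finset.Nat.sum_antidiagonal_eq_sum_range_succ_mk]
    have h2 : ((∑ k ∈ range (n + 1), sg k * ((n.choose k * a (n - k) : ℕ) : ℤ) : ℤ) : ℝ) = 0 := by
      rw [h1]; norm_num
    have h3 : ∀ k ∈ range n.succ, gam k * u (n - k) = (x0 ^ n / n.factorial) *
        (((sg k * ((n.choose k * a (n - k) : ℕ) : ℤ) : ℤ)) : ℝ) := by
      intro k hk
      have hk' : k ≤ n := Nat.lt_succ_iff.1 (mem_range.1 hk)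
      have h4 : ((n.choose k : ℝ)) = n.factorial / (k.factorial * (n - k).factorial) :=
        Nat.cast_choose ℝ hk'
      have h5 : (n.factorial : ℝ) ≠ 0 := by exact_mod_cast n.factorial_ne_zero
      have h6 : (k.factorial : ℝ) ≠ 0 := by exact_mod_cast k.factorial_ne_zero
      have h7 : ((n - k).factorial : ℝ) ≠ 0 := by exact_mod_cast (n - k).factorial_ne_zero
      unfold gam u
      push_cast
      rw [h4]
      have h8 : x0 ^ n = x0 ^ k * x0 ^ (n - k) := by rw [← pow_add]; congr 1; omega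
      rw [h8]
      field_simp
    rw [Finset.sum_congr rfl h3, ← Finset.mul_sum]
    push_cast at h2 ⊢
    rw [h2, mul_zero]

/-- partial sums -/
noncomputable def W (k : ℕ) : ℝ := ∑ i ∈ range (k + 1), gam i

/-- differences -/
noncomputable def ee : ℕ → ℝ
  | 0 => u 0
  | n + 1 => u (n + 1) - u n

lemma conv2 (n : ℕ) : ∑ p ∈ antidiagonal n, W p.1 * ee p.2 = if n = 0 then 1 else 0 := by
  have h1 : PowerSeries.mk W = PowerSeries.mk gam * PowerSeries.mk (fun _ => (1 : ℝ)) := by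
    ext n
    rw [PowerSeries.coeff_mk, PowerSeries.coeff_mul]
    simp only [PowerSeries.coeff_mk, mul_one]
    rw [Finset.Nat.sum_antidiagonal_eq_sum_range_succ_mk]
    rfl
  have h2 : PowerSeries.mk ee = (1 - PowerSeries.X) * PowerSeries.mk u := by
    ext n
    rw [PowerSeries.coeff_mk, sub_mul, one_mul, map_sub, PowerSeries.coeff_mk]
    rcases n with _ | n
    · simp [ee]
    · rw [PowerSeries.coeff_succ_X_mul, PowerSeries.coeff_mk]
      rfl
  have h3 : PowerSeries.mk gam * PowerSeries.mk u = 1 := by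
    ext n
    rw [PowerSeries.coeff_mul, PowerSeries.coeff_one]
    simp only [PowerSeries.coeff_mk]
    exact conv n
  have h4 : PowerSeries.mk W * PowerSeries.mk ee = 1 := by
    have h5 : PowerSeries.mk (fun _ => (1 : ℝ)) * (1 - PowerSeries.X) = 1 :=
      PowerSeries.mk_one_mul_one_sub_eq_one ℝ
    rw [h1, h2]
    calc PowerSeries.mk gam * PowerSeries.mk (fun _ => (1 : ℝ)) * ((1 - PowerSeries.X) *
        PowerSeries.mk u) = (PowerSeries.mk gam * PowerSeries.mk u) *
        (PowerSeries.mk (fun _ => (1 : ℝ)) * (1 - PowerSeries.X)) := by ring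
      _ = 1 := by rw [h3, h5, one_mul]
  have h5 := congrArg (PowerSeries.coeff n) h4
  rw [PowerSeries.coeff_mul, PowerSeries.coeff_one] at h5
  simp only [PowerSeries.coeff_mk] at h5
  exact h5

lemma fac_bound (j : ℕ) : x0 ^ (4 + j) / (4 + j).factorial ≤ (x0 ^ 4 / 24) * (1 / 4) ^ j := by
  induction j with
  | zero => simp [Nat.factorial]
  | succ j ih =>
    have h1 : x0 ^ (4 + (j + 1)) / ((4 + (j + 1)).factorial : ℝ) =
        x0 ^ (4 + j) / (4 + j).factorial * (x0 / (4 + j + 1)) := by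
      rw [show 4 + (j + 1) = (4 + j) + 1 by ring, Nat.factorial_succ, pow_succ]
      have : ((4 + j).factorial : ℝ) ≠ 0 := by exact_mod_cast (4 + j).factorial_ne_zero
      push_cast
      field_simp
    rw [h1, pow_succ (1 / 4 : ℝ) j, ← mul_assoc]
    have h2 : x0 / (4 + (j : ℝ) + 1) ≤ 1 / 4 := by
      rw [div_le_iff₀ (by positivity)]
      have := x0_le
      have : (0 : ℝ) ≤ j := Nat.cast_nonneg j
      linarith
    have h3 := x0_pos
    exact mul_le_mul ih h2 (by positivity) (by positivity)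

lemma W_bound (l : ℕ) : |W (3 + l)| ≤ (x0 ^ 4 / 24) * (4 / 3) * (1 / 4) ^ l := by
  have h1 := hasSum_gam.summable.sum_add_tsum_nat_add (3 + l + 1)
  rw [hasSum_gam.tsum_eq] at h1
  have h2 : W (3 + l) = - ∑' i, gam (i + (3 + l + 1)) := by
    unfold W; linarith
  rw [h2, abs_neg]
  have h3 : HasSum (fun i : ℕ => (x0 ^ 4 / 24) * (1 / 4 : ℝ) ^ l * (1 / 4) ^ i)
      ((x0 ^ 4 / 24) * (1 / 4 : ℝ) ^ l * (1 - 1 / 4)⁻¹) :=
    (hasSum_geometric_of_lt_one (by norm_num) (by norm_num)).mul_left _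
  have h4 : ∀ i, ‖gam (i + (3 + l + 1))‖ ≤ (x0 ^ 4 / 24) * (1 / 4 : ℝ) ^ l * (1 / 4) ^ i := by
    intro i
    rw [Real.norm_eq_abs]
    refine (gam_abs _).trans ?_
    have h5 := fac_bound (l + i)
    rw [show i + (3 + l + 1) = 4 + (l + i) by ring]
    refine h5.trans (le_of_eq ?_)
    rw [pow_add]; ring
  have h5 := tsum_of_norm_bounded h3 h4
  rw [Real.norm_eq_abs] at h5
  refine h5.trans (le_of_eq ?_)
  norm_num
  ring

lemma W_zero : W 0 = 1 := by
  unfold W gam sg; simp

lemma W_one : W 1 = 1 - x0 := by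
  unfold W gam sg
  rw [sum_range_succ, sum_range_one]
  simp
  ring

lemma W_two : W 2 = 1 - x0 := by
  have : W 2 = W 1 + gam 2 := by unfold W; rw [sum_range_succ (n := 2)]
  rw [this, W_one]
  have : gam 2 = 0 := by unfold gam sg; simp
  rw [this, add_zero]

/-- bounds for `|W (i + 1)| (10/9)^(i+1)` -/
noncomputable def V : ℕ → ℝ
  | 0 => 5 / 18
  | 1 => 25 / 81
  | l + 2 => 19 / 100 * (5 / 18) ^ l

lemma V_nonneg (i : ℕ) : 0 ≤ V i := by
  rcases i with _ | _ | i
  · norm_num [V]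
  · norm_num [V]
  · unfold V; positivity

lemma W_le_V (i : ℕ) : |W (i + 1)| ≤ V i * (9 / 10) ^ (i + 1) := by
  have h1 := x0_ge
  have h2 := x0_le
  rcases i with _ | _ | i
  · rw [Nat.zero_add, W_one, abs_of_nonpos (by linarith)]
    norm_num [V]
    linarith
  · rw [W_two, abs_of_nonpos (by linarith)]
    norm_num [V]
    linarith
  · have h3 := W_bound i
    rw [show i + 1 + 1 + 1 = 3 + i by ring]
    refine h3.trans ?_
    unfold V
    rw [pow_add (9 / 10 : ℝ) 3 i]
    have h4 : x0 ^ 4 ≤ (5 / 4) ^ 4 := pow_le_pow_left₀ (by linarith) h2 4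
    have h5 : (5 / 18 : ℝ) ^ i * (9 / 10) ^ i = (1 / 4) ^ i := by
      rw [← mul_pow]; norm_num
    calc x0 ^ 4 / 24 * (4 / 3) * (1 / 4) ^ i ≤ (5 / 4) ^ 4 / 24 * (4 / 3) * (1 / 4) ^ i := by
          apply mul_le_mul_of_nonneg_right _ (by positivity)
          linarith
      _ ≤ 19 / 100 * (9 / 10) ^ 3 * (1 / 4) ^ i := by
          apply mul_le_mul_of_nonneg_right _ (by positivity)
          norm_num
      _ = 19 / 100 * (5 / 18) ^ i * ((9 / 10) ^ 3 * (9 / 10) ^ i) := by
          rw [← h5]; ring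

lemma V_sum (n : ℕ) : ∑ i ∈ range n, V i ≤ 1 := by
  have h1 : ∑ i ∈ range n, V i ≤ ∑ i ∈ range (n + 2), V i := by
    apply sum_le_sum_of_subset_of_nonneg
    · intro i hi; rw [mem_range] at *; omega
    · intro i _ _; exact V_nonneg i
  refine h1.trans ?_
  rw [sum_range_succ', sum_range_succ']
  have h2 : ∑ k ∈ range n, V (k + 1 + 1) = 19 / 100 * ∑ k ∈ range n, (5 / 18 : ℝ) ^ k := by
    rw [Finset.mul_sum]; rfl
  rw [h2]
  have h3 : ∑ k ∈ range n, (5 / 18 : ℝ) ^ k ≤ (1 - 5 / 18)⁻¹ := by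
    rw [← tsum_geometric_of_lt_one (by norm_num : (0 : ℝ) ≤ 5 / 18) (by norm_num)]
    exact (summable_geometric_of_lt_one (by norm_num) (by norm_num)).sum_le_tsum _
      fun i _ => by positivity
  have h4 : V (0 + 1) = 25 / 81 := rfl
  have h5 : V 0 = 5 / 18 := rfl
  rw [h4, h5]
  norm_num at h3 ⊢
  linarith

lemma u_zero : u 0 = 1 := by simp [u, a_zero]

lemma ee_bound (n : ℕ) : |ee n| ≤ (9 / 10) ^ n := by
  induction n using Nat.strong_induction_on with
  | _ n ih =>
    rcases n with _ | n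
    · simp [ee, u_zero]
    · have h1 := conv2 (n + 1)
      rw [if_neg (by omega), Finset.Nat.sum_antidiagonal_succ, W_zero, one_mul] at h1
      have h2 : ee (n + 1) = - ∑ p ∈ antidiagonal n, W (p.1 + 1) * ee p.2 := by
        simp only at h1
        linarith
      rw [h2, abs_neg]
      calc |∑ p ∈ antidiagonal n, W (p.1 + 1) * ee p.2| ≤
          ∑ p ∈ antidiagonal n, |W (p.1 + 1) * ee p.2| := abs_sum_le_sum_abs _ _
        _ ≤ ∑ p ∈ antidiagonal n, V p.1 * (9 / 10) ^ (n + 1) := by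
            apply sum_le_sum
            intro p hp
            rw [HasAntidiagonal.mem_antidiagonal] at hp
            rw [abs_mul]
            have h3 := ih p.2 (by omega)
            have h4 := W_le_V p.1
            have h5 := V_nonneg p.1
            calc |W (p.1 + 1)| * |ee p.2| ≤ (V p.1 * (9 / 10) ^ (p.1 + 1)) * (9 / 10) ^ p.2 :=
                  mul_le_mul h4 h3 (abs_nonneg _) (by positivity)
              _ = V p.1 * (9 / 10) ^ (n + 1) := by
                  rw [mul_assoc, ← pow_add, ← hp]; congr 2; ring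
        _ = (∑ i ∈ range (n + 1), V i) * (9 / 10) ^ (n + 1) := by
            rw [← Finset.sum_mul, Finset.Nat.sum_antidiagonal_eq_sum_range_succ_mk]
        _ ≤ 1 * (9 / 10) ^ (n + 1) :=
            mul_le_mul_of_nonneg_right (V_sum _) (by positivity)
        _ = _ := one_mul _

lemma ee_summable : Summable fun n => ‖ee n‖ :=
  Summable.of_nonneg_of_le (fun _ => norm_nonneg _) (fun n => by
    rw [Real.norm_eq_abs]; exact ee_bound n)
    (summable_geometric_of_lt_one (by norm_num : (0 : ℝ) ≤ 9 / 10) (by norm_num))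

lemma W_summable : Summable fun n => ‖W n‖ := by
  rw [← summable_nat_add_iff 3]
  refine Summable.of_nonneg_of_le (fun _ => norm_nonneg _) (fun n => ?_)
    ((summable_geometric_of_lt_one (by norm_num : (0 : ℝ) ≤ 1 / 4) (by norm_num)).mul_left
      ((x0 ^ 4 / 24) * (4 / 3)))
  rw [Real.norm_eq_abs, add_comm n 3]
  exact W_bound n

lemma u_eq (n : ℕ) : u n = ∑ i ∈ range (n + 1), ee i := by
  induction n with
  | zero => simp [ee]
  | succ n ih => rw [sum_range_succ, ← ih]; simp [ee]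

/-- **The limit.** -/
theorem u_tendsto : ∃ L : ℝ, 0 < L ∧ Tendsto u atTop (𝓝 L) := by
  have h1 : Summable ee := ee_summable.of_norm
  have h2 : Tendsto u atTop (𝓝 (∑' n, ee n)) := by
    have h3 := h1.hasSum.tendsto_sum_nat.comp (tendsto_add_atTop_nat 1)
    refine h3.congr fun n => ?_
    rw [u_eq]; rfl
  refine ⟨∑' n, ee n, ?_, h2⟩
  have h4 : (∑' n, W n) * ∑' n, ee n = 1 := by
    rw [tsum_mul_tsum_eq_tsum_sum_antidiagonal_of_summable_norm W_summable ee_summable]
    simp only [conv2]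
    exact tsum_ite_eq 0 _
  have h5 : 0 ≤ ∑' n, ee n := ge_of_tendsto' h2 fun n => u_nonneg n
  rcases h5.lt_or_eq with h | h
  · exact h
  · rw [← h, mul_zero] at h4
    norm_num at h4

end Pool.Agent.X17.DD
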