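import Pool.Agent.X17.DD.Split

/-!
# Inclusion-exclusion for permutations without double descents after a given beginning
-/

set_option autoImplicit false

namespace Pool.Agent.X17.DD

open Equiv

/-- no double descent -/
def NoDD (d : ℕ → Prop) : Prop := ∀ i, ¬ (d i ∧ d (i + 1))

/-- `Q` depends on the entries of the descent word before `m` only -/
def Loc (m : ℕ) (Q : (ℕ → Prop) → Prop) : Prop :=
  ∀ d d' : ℕ → Prop, (∀ i, i < m → (d i ↔ d' i)) → (Q d ↔ Q d')

/-- number of permutations of `n` letters whose descent word satisfies `P` -/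
noncomputable def num (n : ℕ) (P : (ℕ → Prop) → Prop) : ℕ :=
  Nat.card {w : Perm (Fin n) // P (Dn w)}

/-- the number of permutations without double descents -/
noncomputable def a (n : ℕ) : ℕ := num n NoDD

lemma num_congr {n : ℕ} {P P' : (ℕ → Prop) → Prop}
    (h : ∀ w : Perm (Fin n), P (Dn w) ↔ P' (Dn w)) : num n P = num n P' := by
  unfold num
  exact Nat.card_congr (Equiv.subtypeEquivRight h)

lemma num_mono {n : ℕ} {P P' : (ℕ → Prop) → Prop}
    (h : ∀ w : Perm (Fin n), P (Dn w) → P' (Dn w)) : num n P ≤ num n P' := by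
  unfold num
  exact Nat.card_le_card_of_injective (fun w => (⟨w.1, h w.1 w.2⟩ : {w : Perm (Fin n) // P' (Dn w)}))
    fun x y hxy => Subtype.ext (congrArg (fun z => z.1) hxy)

lemma num_or {n : ℕ} {P P₁ P₂ : (ℕ → Prop) → Prop}
    (h : ∀ w : Perm (Fin n), P (Dn w) ↔ (P₁ (Dn w) ∨ P₂ (Dn w)))
    (h' : ∀ w : Perm (Fin n), ¬ (P₁ (Dn w) ∧ P₂ (Dn w))) : num n P = num n P₁ + num n P₂ := by
  classical
  unfold num
  rw [Nat.card_eq_fintype_card, Nat.card_eq_fintype_card, Nat.card_eq_fintype_card,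
    Fintype.card_subtype, Fintype.card_subtype, Fintype.card_subtype, ← Finset.card_union_of_disjoint]
  · congr 1
    ext w
    simp only [Finset.mem_filter, Finset.mem_univ, true_and, Finset.mem_union]
    exact h w
  · rw [Finset.disjoint_left]
    intro w h1 h2
    rw [Finset.mem_filter] at h1 h2
    exact h' w ⟨h1.2, h2.2⟩

lemma num_eq_zero {n : ℕ} {P : (ℕ → Prop) → Prop} (h : ∀ w : Perm (Fin n), ¬ P (Dn w)) :
    num n P = 0 := by
  unfold num
  have : IsEmpty {w : Perm (Fin n) // P (Dn w)} := ⟨fun w => h w.1 w.2⟩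
  exact Nat.card_of_isEmpty

lemma num_pos {n : ℕ} {P : (ℕ → Prop) → Prop} (h : 0 < num n P) :
    ∃ w : Perm (Fin n), P (Dn w) := by
  by_contra hc
  push Not at hc
  rw [num_eq_zero hc] at h
  exact lt_irrefl _ h

lemma num_pos_of {n : ℕ} {P : (ℕ → Prop) → Prop} (w : Perm (Fin n)) (h : P (Dn w)) :
    0 < num n P := by
  unfold num
  have : Nonempty {w : Perm (Fin n) // P (Dn w)} := ⟨⟨w, h⟩⟩
  exact Nat.card_pos

/-- splitting -/
lemma num_split {p q : ℕ} {P : (ℕ → Prop) → Prop} {Φ Ψ : (ℕ → Prop) → Prop}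
    (hΦ : Loc (p - 1) Φ)
    (h : ∀ w : Perm (Fin (p + q)), P (Dn w) ↔ Φ (Dn w) ∧ Ψ (fun i => Dn w (p + i))) :
    num (p + q) P = (p + q).choose p * (num p Φ * num q Ψ) := by
  unfold num
  refine card_glue _ _ _ fun x => ?_
  rw [h]
  have h1 : (fun i => Dn (glue x) (p + i)) = Dn x.2.2 := by
    funext i
    exact propext (dn_right x i)
  rw [h1]
  have h2 : Φ (Dn (glue x)) ↔ Φ (Dn x.2.1) := hΦ _ _ fun i hi => dn_left x (by omega)
  rw [h2]

/-! ### the beginning `Q` of length `c` followed by `j` descents -/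

section

variable (c : ℕ) (Q : (ℕ → Prop) → Prop)

/-- the beginning of length `c + j` -/
def Beg (j : ℕ) (d : ℕ → Prop) : Prop := Q d ∧ ∀ i, i < j → d (c - 1 + i)

/-- beginning, then no condition, then no double descents -/
def DP (j : ℕ) (d : ℕ → Prop) : Prop := Beg c Q j d ∧ NoDD fun i => d (c + j + i)

/-- beginning, then an ascent (or the end), then no double descents -/
def AP (j : ℕ) (d : ℕ → Prop) : Prop := Beg c Q j d ∧ ¬ d (c - 1 + j) ∧ NoDD fun i => d (c + j + i)

variable {c Q}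

lemma beg_succ {j : ℕ} {d : ℕ → Prop} : Beg c Q (j + 1) d ↔ Beg c Q j d ∧ d (c - 1 + j) := by
  unfold Beg
  constructor
  · rintro ⟨h1, h2⟩
    exact ⟨⟨h1, fun i hi => h2 i (by omega)⟩, h2 j (by omega)⟩
  · rintro ⟨⟨h1, h2⟩, h3⟩
    refine ⟨h1, fun i hi => ?_⟩
    rcases Nat.lt_succ_iff_lt_or_eq.1 hi with h | h
    · exact h2 i h
    · rw [h]; exact h3

lemma noDD_shift {d : ℕ → Prop} {m : ℕ} : (NoDD fun i => d (m + i)) ↔
    ¬ (d m ∧ d (m + 1)) ∧ NoDD fun i => d (m + 1 + i) := by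
  unfold NoDD
  constructor
  · intro h
    refine ⟨h 0, fun i => ?_⟩
    have := h (i + 1)
    have e1 : m + (i + 1) = m + 1 + i := by ring
    have e2 : m + (i + 1 + 1) = m + 1 + (i + 1) := by ring
    simp only [e1, e2] at this
    exact this
  · rintro ⟨h1, h2⟩ i
    rcases i with _ | i
    · exact h1
    · have := h2 i
      have e1 : m + (i + 1) = m + 1 + i := by ring
      have e2 : m + (i + 1 + 1) = m + 1 + (i + 1) := by ring
      simp only [e1, e2]
      exact this

/-- the three cases -/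
lemma DP_iff (hc : 1 ≤ c) {j : ℕ} {d : ℕ → Prop} : DP c Q j d ↔
    (AP c Q j d ∨ (AP c Q (j + 1) d ∨ AP c Q (j + 2) d)) := by
  have e0 : c - 1 + (j + 1) = c + j := by omega
  have e1 : c - 1 + (j + 2) = c + j + 1 := by omega
  have hs1 := noDD_shift (d := d) (m := c + j)
  have hs2 := noDD_shift (d := d) (m := c + j + 1)
  have e2 : (fun i => d (c + (j + 1) + i)) = fun i => d (c + j + 1 + i) := by
    funext i; congr 1
  have e3 : (fun i => d (c + (j + 2) + i)) = fun i => d (c + j + 1 + 1 + i) := by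
    funext i; congr 1
  unfold DP AP
  rw [beg_succ (j := j + 1), beg_succ (j := j), e0, e1, e2, e3]
  have e4 : (NoDD fun i => d (c + j + i)) ↔
    (¬ d (c + j) ∧ NoDD fun i => d (c + j + 1 + i)) ∨
      (d (c + j) ∧ ¬ d (c + j + 1) ∧ NoDD fun i => d (c + j + 1 + 1 + i)) := by
    rw [hs1]
    constructor
    · rintro ⟨h1, h2⟩
      by_cases h3 : d (c + j)
      · have h4 : ¬ d (c + j + 1) := fun h => h1 ⟨h3, h⟩
        exact Or.inr ⟨h3, h4, (hs2.1 h2).2⟩
      · exact Or.inl ⟨h3, h2⟩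
    · rintro (⟨h1, h2⟩ | ⟨h1, h2, h3⟩)
      · exact ⟨fun h => h1 h.1, h2⟩
      · refine ⟨fun h => h2 h.2, ?_⟩
        rw [hs2]
        exact ⟨fun h => h2 h.1, h3⟩
  by_cases hd : d (c - 1 + j)
  · rw [e4]; tauto
  · tauto

lemma AP_excl {j k : ℕ} (hjk : j < k) {d : ℕ → Prop} : ¬ (AP c Q j d ∧ AP c Q k d) := by
  rintro ⟨⟨_, h1, _⟩, ⟨_, h2⟩, _, _⟩
  exact h1 (h2 j hjk)

lemma num_DP (hc : 1 ≤ c) (n j : ℕ) : num n (DP c Q j) =
    num n (AP c Q j) + (num n (AP c Q (j + 1)) + num n (AP c Q (j + 2))) := by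
  have h1 : num n (fun d => AP c Q (j + 1) d ∨ AP c Q (j + 2) d) =
      num n (AP c Q (j + 1)) + num n (AP c Q (j + 2)) :=
    num_or (fun w => Iff.rfl) fun w => AP_excl (by omega)
  rw [← h1]
  refine num_or (fun w => DP_iff hc) fun w => ?_
  rintro ⟨h2, h3 | h3⟩
  · exact AP_excl (by omega) ⟨h2, h3⟩
  · exact AP_excl (by omega) ⟨h2, h3⟩

lemma AP_zero {n j : ℕ} (hc : 1 ≤ c) (hj : 1 ≤ j) (hn : n < c + j) : num n (AP c Q j) = 0 := by
  refine num_eq_zero fun w hw => ?_
  obtain ⟨⟨_, h⟩, _⟩ := hw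
  obtain ⟨h1, _⟩ := h (j - 1) (by omega)
  omega

lemma DP_zero {n j : ℕ} (hc : 1 ≤ c) (hj : 1 ≤ j) (hn : n < c + j) : num n (DP c Q j) = 0 := by
  refine num_eq_zero fun w hw => ?_
  obtain ⟨⟨_, h⟩, _⟩ := hw
  obtain ⟨h1, _⟩ := h (j - 1) (by omega)
  omega

/-- number of the beginnings -/
noncomputable def xx (c : ℕ) (Q : (ℕ → Prop) → Prop) (j : ℕ) : ℕ := num (c + j) (Beg c Q j)

lemma Beg_loc (hc : 1 ≤ c) (hQ : Loc (c - 1) Q) (j : ℕ) : Loc (c + j - 1) (Beg c Q j) := by
  intro d d' h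
  unfold Beg
  have h1 : Q d ↔ Q d' := hQ d d' fun i hi => h i (by omega)
  rw [h1]
  constructor
  · rintro ⟨h2, h3⟩
    exact ⟨h2, fun i hi => (h _ (by omega)).1 (h3 i hi)⟩
  · rintro ⟨h2, h3⟩
    exact ⟨h2, fun i hi => (h _ (by omega)).2 (h3 i hi)⟩

lemma num_DP_eq (hc : 1 ≤ c) (hQ : Loc (c - 1) Q) {n j : ℕ} (hn : c + j ≤ n) :
    num n (DP c Q j) = n.choose (c + j) * (xx c Q j * a (n - (c + j))) := by
  obtain ⟨q, rfl⟩ := Nat.exists_eq_add_of_le hn
  rw [Nat.add_sub_cancel_left]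
  exact num_split (Beg_loc hc hQ j) fun w => Iff.rfl

/-- the periodic sequence `1, -1, 0, 1, -1, 0, ...` -/
def sg (j : ℕ) : ℤ := if j % 3 = 0 then 1 else if j % 3 = 1 then -1 else 0

lemma sg_add_three (j : ℕ) : sg (j + 3) = sg j := by
  unfold sg
  rw [Nat.add_mod_right]

lemma tele (A : ℕ → ℤ) (K : ℕ) :
    ∑ j ∈ Finset.range (3 * K), sg j * (A j + (A (j + 1) + A (j + 2))) = A 0 - A (3 * K) := by
  induction K with
  | zero => simp
  | succ K ih =>
    have e : 3 * (K + 1) = 3 * K + 1 + 1 + 1 := by ring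
    rw [e, Finset.sum_range_succ, Finset.sum_range_succ, Finset.sum_range_succ, ih]
    have h0 : sg (3 * K) = 1 := by unfold sg; simp
    have h1 : sg (3 * K + 1) = -1 := by
      unfold sg
      have h1 : (3 * K + 1) % 3 = 1 := by omega
      rw [h1]; norm_num
    have h2 : sg (3 * K + 1 + 1) = 0 := by
      unfold sg
      have h1 : (3 * K + 1 + 1) % 3 = 2 := by omega
      rw [h1]; norm_num
    rw [h0, h1, h2]
    ring_nf

/-- **The formula.** -/
theorem num_AP (hc : 1 ≤ c) (hQ : Loc (c - 1) Q) {n k : ℕ} (hn : c ≤ n) :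
    (num n (AP c Q k) : ℤ) = ∑ j ∈ Finset.range (3 * n), sg j *
      (if c + (k + j) ≤ n then
        ((n.choose (c + (k + j)) * (xx c Q (k + j) * a (n - (c + (k + j)))) : ℕ) : ℤ) else 0) := by
  have h1 := tele (fun j => (num n (AP c Q (k + j)) : ℤ)) n
  have h2 : (num n (AP c Q (k + 3 * n)) : ℤ) = 0 := by
    rcases Nat.eq_zero_or_pos n with h | h
    · omega
    · rw [AP_zero hc (by omega) (by omega)]; rfl
  rw [h2, sub_zero] at h1
  have h3 : (num n (AP c Q (k + 0)) : ℤ) = (num n (AP c Q k) : ℤ) := rfl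
  rw [h3] at h1
  rw [← h1]
  refine Finset.sum_congr rfl fun j _ => ?_
  congr 1
  have h4 : (num n (DP c Q (k + j)) : ℤ) = (num n (AP c Q (k + j)) : ℤ) +
      ((num n (AP c Q (k + (j + 1))) : ℤ) + (num n (AP c Q (k + (j + 2))) : ℤ)) := by
    exact_mod_cast num_DP hc n (k + j)
  rw [← h4]
  split_ifs with h5
  · rw [num_DP_eq hc hQ h5]
  · rw [DP_zero hc (by omega) (by omega)]; rfl

end

/-- one decreasing permutation -/
lemma num_desc (j : ℕ) : num j (fun d => ∀ i, i + 1 < j → d i) = 1 := by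
  unfold num
  rw [Nat.card_eq_one_iff_unique]
  constructor
  · constructor
    rintro ⟨w, hw⟩ ⟨w', hw'⟩
    have key : ∀ v : Perm (Fin j), (∀ i, i + 1 < j → Dn v i) → StrictAnti v := by
      intro v hv
      rcases j with _ | j
      · intro x; exact x.elim0
      · rw [Fin.strictAnti_iff_succ_lt]
        intro i
        obtain ⟨_, h2⟩ := hv i.1 (by have := i.2; omega)
        exact h2
    have h1 := key w hw
    have h2 := key w' hw'
    apply Subtype.ext
    show w = w'
    have h3 : StrictMono (fun i => w (w'.symm i)) := by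
      intro x y hxy
      have : w'.symm y < w'.symm x := by
        by_contra hc
        push Not at hc
        rcases hc.lt_or_eq with h | h
        · have := h2 h
          rw [Equiv.apply_symm_apply, Equiv.apply_symm_apply] at this
          exact absurd hxy (not_lt.2 this.le)
        · have := w'.symm.injective h
          exact absurd this hxy.ne
      exact h1 this
    have h4 : ∀ x, w (w'.symm x) = x := by
      have h5 : (fun i => w (w'.symm i)) = id := by
        have := Subsingleton.elim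
          (⟨⟨w'.symm.trans w, fun {x y} => by
            exact h3.le_iff_le⟩, trivial⟩ : {e : Fin j ≃o Fin j // True})
          ⟨OrderIso.refl _, trivial⟩
        funext x
        have h6 := congrArg (fun e => e.1 x) this
        exact h6
      exact fun x => congrFun h5 x
    ext x
    have h5 := h4 (w' x)
    rw [Equiv.symm_apply_apply] at h5
    rw [h5]
  · refine ⟨⟨Fin.revPerm, fun i hi => ⟨hi, ?_⟩⟩⟩
    rw [Fin.revPerm_apply, Fin.revPerm_apply, Fin.rev_lt_rev]
    exact Nat.lt_succ_self i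

end Pool.Agent.X17.DD
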