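import Pool.Agent.X17.DD.Asym

/-!
# The limits for a given beginning
-/

set_option autoImplicit false

namespace Pool.Agent.X17.DD

open Equiv Finset Filter Topology

lemma u_bdd : ∃ B : ℝ, ∀ n, u n ≤ B := by
  obtain ⟨L, _, h⟩ := u_tendsto
  obtain ⟨B, hB⟩ := h.bddAbove_range
  exact ⟨B, fun n => hB ⟨n, rfl⟩⟩

variable {c : ℕ} {Q : (ℕ → Prop) → Prop}

/-- the terms -/
noncomputable def term (c : ℕ) (Q : (ℕ → Prop) → Prop) (n j : ℕ) : ℝ :=
  (sg j : ℝ) * (if c + j ≤ n then
    ((xx c Q j : ℝ) / (c + j).factorial * x0 ^ (c + j)) * u (n - (c + j)) else 0)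

lemma norm_eq (hc : 1 ≤ c) (hQ : Loc (c - 1) Q) {n : ℕ} (hn : c ≤ n) :
    (num n (AP c Q 0) : ℝ) / n.factorial * x0 ^ n = ∑' j, term c Q n j := by
  have h1 := num_AP (k := 0) hc hQ hn
  have h2 : ∑' j, term c Q n j = ∑ j ∈ range (3 * n), term c Q n j := by
    apply tsum_eq_sum
    intro j hj
    rw [mem_range, not_lt] at hj
    unfold term
    rw [if_neg (by omega), mul_zero]
  rw [h2]
  have h3 : (num n (AP c Q 0) : ℝ) = ((num n (AP c Q 0) : ℤ) : ℝ) := by norm_num
  rw [h3, h1, Int.cast_sum, Finset.sum_div, Finset.sum_mul]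
  refine Finset.sum_congr rfl fun j _ => ?_
  unfold term
  rw [Int.cast_mul, mul_div_assoc, mul_assoc]
  congr 1
  rw [Nat.zero_add]
  split_ifs with h
  · have h4 : ((n.choose (c + j) : ℝ)) = n.factorial / ((c + j).factorial * (n - (c + j)).factorial) :=
      Nat.cast_choose ℝ h
    have h5 : (n.factorial : ℝ) ≠ 0 := by exact_mod_cast n.factorial_ne_zero
    have h6 : ((c + j).factorial : ℝ) ≠ 0 := by exact_mod_cast (c + j).factorial_ne_zero
    have h7 : ((n - (c + j)).factorial : ℝ) ≠ 0 := by exact_mod_cast (n - (c + j)).factorial_ne_zero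
    unfold u
    push_cast
    rw [h4]
    have h8 : x0 ^ n = x0 ^ (c + j) * x0 ^ (n - (c + j)) := by rw [← pow_add]; congr 1; omega
    rw [h8]
    field_simp
  · simp

/-- existence of the limit -/
theorem lim_exists (hc : 1 ≤ c) (hQ : Loc (c - 1) Q) :
    ∃ K : ℝ, Tendsto (fun n => (num n (AP c Q 0) : ℝ) / n.factorial * x0 ^ n) atTop (𝓝 K) := by
  obtain ⟨L, _, hL⟩ := u_tendsto
  obtain ⟨B, hB⟩ := u_bdd
  have hB0 : 0 ≤ B := (u_nonneg 0).trans (hB 0)
  have hx := x0_pos
  refine ⟨∑' j, (sg j : ℝ) * (((xx c Q j : ℝ) / (c + j).factorial * x0 ^ (c + j)) * L), ?_⟩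
  have h1 : Tendsto (fun n => ∑' j, term c Q n j) atTop
      (𝓝 (∑' j, (sg j : ℝ) * (((xx c Q j : ℝ) / (c + j).factorial * x0 ^ (c + j)) * L))) := by
    have hsum : Summable fun j : ℕ => x0 ^ c * B * (x0 ^ j / j.factorial) :=
      (Real.summable_pow_div_factorial x0).mul_left _
    refine tendsto_tsum_of_dominated_convergence hsum (fun j => ?_) (Eventually.of_forall fun n j => ?_)
    · unfold term
      apply Tendsto.const_mul
      have h2 : Tendsto (fun n => ((xx c Q j : ℝ) / (c + j).factorial * x0 ^ (c + j)) *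
          u (n - (c + j))) atTop
          (𝓝 (((xx c Q j : ℝ) / (c + j).factorial * x0 ^ (c + j)) * L)) :=
        (hL.comp (tendsto_sub_atTop_nat (c + j))).const_mul _
      refine h2.congr' ?_
      filter_upwards [eventually_ge_atTop (c + j)] with n hn
      rw [if_pos hn]
    · unfold term
      rw [Real.norm_eq_abs, abs_mul]
      have h3 : (xx c Q j : ℝ) / (c + j).factorial ≤ 1 / j.factorial := by
        have h4 := xx_le c hc Q j
        have h5 : (0 : ℝ) < j.factorial := by exact_mod_cast j.factorial_pos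
        have h6 : (0 : ℝ) < (c + j).factorial := by exact_mod_cast (c + j).factorial_pos
        rw [div_le_div_iff₀ h6 h5, one_mul]
        exact_mod_cast h4
      have h7 : 0 ≤ (xx c Q j : ℝ) / (c + j).factorial := by positivity
      have h8 : |(if c + j ≤ n then
          ((xx c Q j : ℝ) / (c + j).factorial * x0 ^ (c + j)) * u (n - (c + j)) else 0 : ℝ)| ≤
          x0 ^ c * B * (x0 ^ j / j.factorial) := by
        split_ifs
        · have h9 := u_nonneg (n - (c + j))
          rw [abs_of_nonneg (by positivity)]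
          calc (xx c Q j : ℝ) / (c + j).factorial * x0 ^ (c + j) * u (n - (c + j)) ≤
              1 / j.factorial * x0 ^ (c + j) * B := by
                apply mul_le_mul _ (hB _) h9 (by positivity)
                exact mul_le_mul_of_nonneg_right h3 (by positivity)
            _ = _ := by rw [pow_add]; ring
        · rw [abs_zero]; positivity
      calc |(sg j : ℝ)| * _ ≤ 1 * (x0 ^ c * B * (x0 ^ j / j.factorial)) :=
            mul_le_mul (sg_abs j) h8 (abs_nonneg _) zero_le_one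
        _ = _ := one_mul _
  refine h1.congr' ?_
  filter_upwards [eventually_ge_atTop c] with n hn
  rw [norm_eq hc hQ hn]

/-- lower bound for `up` -/
lemma up_lower {n : ℕ} (hn : 2 ≤ n) :
    x0 * u (n - 1) - x0 ^ 2 / 2 * u (n - 2) ≤ (up n : ℝ) / n.factorial * x0 ^ n := by
  obtain ⟨m, rfl⟩ := Nat.exists_eq_add_of_le' hn
  have h1 := up_ge hn
  have e1 : m + 2 - 1 = m + 1 := rfl
  have e2 : m + 2 - 2 = m := rfl
  rw [e1, e2] at *
  have h2 : ((m + 2).choose 1 : ℝ) * a (m + 1) ≤ up (m + 2) + (m + 2).choose 2 * a m := by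
    exact_mod_cast h1
  have hx := x0_pos
  have h3 : (0 : ℝ) < (m + 2).factorial := by exact_mod_cast (m + 2).factorial_pos
  have h4 : (0 : ℝ) ≤ x0 ^ (m + 2) / (m + 2).factorial := by positivity
  have h5 := mul_le_mul_of_nonneg_right h2 h4
  unfold u
  have f1 : ((m + 2).factorial : ℝ) = (m + 2) * (m + 1) * m.factorial := by
    rw [Nat.factorial_succ, Nat.factorial_succ]; push_cast; ring
  have f2 : ((m + 1).factorial : ℝ) = (m + 1) * m.factorial := by
    rw [Nat.factorial_succ]; push_cast; ring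
  have f0 : (m.factorial : ℝ) ≠ 0 := by exact_mod_cast m.factorial_ne_zero
  have c1 : ((m + 2).choose 1 : ℝ) = m + 2 := by rw [Nat.choose_one_right]; push_cast; ring
  have c2 : ((m + 2).choose 2 : ℝ) = (m + 2) * (m + 1) / 2 := by
    rw [Nat.cast_choose_two]; push_cast; ring
  rw [c1, c2, f1] at h5
  rw [f1, f2]
  have g1 : x0 * ((a (m + 1) : ℝ) / ((m + 1) * m.factorial) * x0 ^ (m + 1)) -
      x0 ^ 2 / 2 * ((a m : ℝ) / m.factorial * x0 ^ m) =
      (m + 2) * (a (m + 1) : ℝ) * (x0 ^ (m + 2) / ((m + 2) * (m + 1) * m.factorial)) -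
      (m + 2) * (m + 1) / 2 * a m * (x0 ^ (m + 2) / ((m + 2) * (m + 1) * m.factorial)) := by
    field_simp
    ring
  rw [g1]
  have g2 : (up (m + 2) : ℝ) / ((m + 2) * (m + 1) * m.factorial) * x0 ^ (m + 2) =
      up (m + 2) * (x0 ^ (m + 2) / ((m + 2) * (m + 1) * m.factorial)) := by ring
  rw [g2]
  linarith

/-- the beginning of length `c + 1` -/
lemma num_lower (hc : 1 ≤ c) (hQ : Loc (c - 1) Q) (q : ℕ) :
    (c + 1 + q).choose (c + 1) * (num (c + 1) (fun d => Q d ∧ ¬ d (c - 1)) * up q) ≤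
      num (c + 1 + q) (AP c Q 0) := by
  have h1 : Loc (c + 1 - 1) (fun d => Q d ∧ ¬ d (c - 1)) := by
    intro d d' h
    have h2 : Q d ↔ Q d' := hQ d d' fun i hi => h i (by omega)
    have h3 : d (c - 1) ↔ d' (c - 1) := h _ (by omega)
    simp only [h2, h3]
  have h2 := num_split (p := c + 1) (q := q)
    (P := fun d => (Q d ∧ ¬ d (c - 1)) ∧ AP 1 TT 0 (fun i => d (c + 1 + i))) h1
    (Ψ := AP 1 TT 0) (fun w => Iff.rfl)
  unfold up
  rw [← h2]
  refine num_mono fun w => ?_
  generalize Dn w = d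
  intro hw
  obtain ⟨⟨h3, h4⟩, _, h5, h6⟩ := hw
  refine ⟨⟨h3, fun i hi => absurd hi (Nat.not_lt_zero _)⟩, h4, ?_⟩
  show NoDD fun i => d (c + i)
  rw [noDD_shift]
  refine ⟨fun h => h5 h.2, ?_⟩
  rw [noDD_shift]
  refine ⟨fun h => h5 h.1, ?_⟩
  have e : (fun i => (fun i => d (c + 1 + i)) (1 + 0 + i)) = fun i => d (c + 1 + 1 + i) := by
    funext i
    show d (c + 1 + (1 + 0 + i)) = d (c + 1 + 1 + i)
    congr 1
    ring
  rw [← e]
  exact h6

/-- the limit is positive -/
theorem lim_pos (hc : 1 ≤ c) (hQ : Loc (c - 1) Q)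
    (hp : 0 < num (c + 1) (fun d => Q d ∧ ¬ d (c - 1))) :
    ∃ K : ℝ, 0 < K ∧
      Tendsto (fun n => (num n (AP c Q 0) : ℝ) / n.factorial * x0 ^ n) atTop (𝓝 K) := by
  obtain ⟨K, hK⟩ := lim_exists hc hQ
  refine ⟨K, ?_, hK⟩
  obtain ⟨L, hL0, hL⟩ := u_tendsto
  have hx := x0_pos
  have hx2 := x0_le
  have h1 : Tendsto (fun q => x0 ^ (c + 1) / (c + 1).factorial *
      (x0 * u (q + 2 - 1) - x0 ^ 2 / 2 * u (q + 2 - 2))) atTop
      (𝓝 (x0 ^ (c + 1) / (c + 1).factorial * (x0 * L - x0 ^ 2 / 2 * L))) := by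
    apply Tendsto.const_mul
    apply Tendsto.sub
    · exact (hL.comp (tendsto_add_atTop_nat 1)).const_mul _
    · exact hL.const_mul _
  have h2 : Tendsto (fun q => (num (c + 1 + (q + 2)) (AP c Q 0) : ℝ) /
      (c + 1 + (q + 2)).factorial * x0 ^ (c + 1 + (q + 2))) atTop (𝓝 K) := by
    have h3 : Tendsto (fun q : ℕ => c + 1 + (q + 2)) atTop atTop := by
      have : (fun q : ℕ => c + 1 + (q + 2)) = fun q => q + (c + 3) := by funext q; ring
      rw [this]
      exact tendsto_add_atTop_nat _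
    exact hK.comp h3
  have h4 : ∀ q : ℕ, x0 ^ (c + 1) / (c + 1).factorial *
      (x0 * u (q + 2 - 1) - x0 ^ 2 / 2 * u (q + 2 - 2)) ≤
      (num (c + 1 + (q + 2)) (AP c Q 0) : ℝ) / (c + 1 + (q + 2)).factorial *
        x0 ^ (c + 1 + (q + 2)) := by
    intro q
    have h5 := num_lower hc hQ (q + 2)
    have h6 := up_lower (n := q + 2) (by omega)
    have h7 : ((c + 1 + (q + 2)).choose (c + 1) : ℝ) * up (q + 2) ≤
        num (c + 1 + (q + 2)) (AP c Q 0) := by
      have : (c + 1 + (q + 2)).choose (c + 1) * up (q + 2) ≤ num (c + 1 + (q + 2)) (AP c Q 0) := by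
        refine le_trans ?_ h5
        apply Nat.mul_le_mul_left
        exact Nat.le_mul_of_pos_left _ hp
      exact_mod_cast this
    have h8 : ((c + 1 + (q + 2)).choose (c + 1) : ℝ) =
        (c + 1 + (q + 2)).factorial / ((c + 1).factorial * (q + 2).factorial) := by
      rw [Nat.cast_choose ℝ (by omega), Nat.add_sub_cancel_left]
    have g1 : (0 : ℝ) < (c + 1 + (q + 2)).factorial := by
      exact_mod_cast (c + 1 + (q + 2)).factorial_pos
    have g2 : (0 : ℝ) < (c + 1).factorial := by exact_mod_cast (c + 1).factorial_pos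
    have g3 : (0 : ℝ) < (q + 2).factorial := by exact_mod_cast (q + 2).factorial_pos
    calc x0 ^ (c + 1) / (c + 1).factorial * (x0 * u (q + 2 - 1) - x0 ^ 2 / 2 * u (q + 2 - 2)) ≤
        x0 ^ (c + 1) / (c + 1).factorial * ((up (q + 2) : ℝ) / (q + 2).factorial * x0 ^ (q + 2)) :=
          mul_le_mul_of_nonneg_left h6 (by positivity)
      _ = ((c + 1 + (q + 2)).choose (c + 1) : ℝ) * up (q + 2) / (c + 1 + (q + 2)).factorial *
          x0 ^ (c + 1 + (q + 2)) := by
          rw [h8, pow_add x0 (c + 1) (q + 2)]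
          field_simp
      _ ≤ _ := by
          apply mul_le_mul_of_nonneg_right _ (by positivity)
          exact div_le_div_of_nonneg_right h7 g1.le
  have h9 := le_of_tendsto_of_tendsto' h1 h2 h4
  refine lt_of_lt_of_le ?_ h9
  have g2 : (0 : ℝ) < (c + 1).factorial := by exact_mod_cast (c + 1).factorial_pos
  have g3 : x0 * L - x0 ^ 2 / 2 * L = x0 * L * (1 - x0 / 2) := by ring
  rw [g3]
  have g4 : 0 < 1 - x0 / 2 := by linarith
  positivity

end Pool.Agent.X17.DD
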