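import Pool.Agent.X17.DD.Count

/-!
# The recurrence of the number of permutations without double descents
-/

set_option autoImplicit false

namespace Pool.Agent.X17.DD

open Equiv Finset

/-- no condition -/
def TT : (ℕ → Prop) → Prop := fun _ => True

lemma TT_loc (m : ℕ) : Loc m TT := fun _ _ _ => Iff.rfl

lemma xx_one (j : ℕ) : xx 1 TT j = 1 := by
  unfold xx
  refine (num_congr fun w => ?_).trans (num_desc (1 + j))
  unfold Beg TT
  constructor
  · rintro ⟨_, h⟩ i hi
    have := h i (by omega)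
    rwa [show 1 - 1 + i = i by omega] at this
  · intro h
    refine ⟨trivial, fun i hi => ?_⟩
    rw [show 1 - 1 + i = i by omega]
    exact h i (by omega)

lemma num_TT (c : ℕ) : num c TT = c.factorial := by
  unfold num TT
  rw [Nat.card_congr (Equiv.subtypeUnivEquiv fun _ => trivial), Nat.card_eq_fintype_card,
    Fintype.card_perm, Fintype.card_fin]

lemma xx_le (c : ℕ) (hc : 1 ≤ c) (Q : (ℕ → Prop) → Prop) (j : ℕ) :
    xx c Q j * j.factorial ≤ (c + j).factorial := by
  have h1 : xx c Q j ≤ num (c + j) (fun d => TT d ∧ ∀ i, i + 1 < j → d (c + i)) := by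
    refine num_mono fun w hw => ⟨trivial, fun i hi => ?_⟩
    have := hw.2 (i + 1) hi
    rwa [show c - 1 + (i + 1) = c + i by omega] at this
  have h2 : num (c + j) (fun d => TT d ∧ ∀ i, i + 1 < j → d (c + i)) =
      (c + j).choose c * (num c TT * num j (fun d => ∀ i, i + 1 < j → d i)) :=
    num_split (TT_loc _) fun w => Iff.rfl
  rw [h2, num_TT, num_desc, mul_one] at h1
  calc xx c Q j * j.factorial ≤ (c + j).choose c * c.factorial * j.factorial :=
        Nat.mul_le_mul_right _ h1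
    _ = (c + j).factorial := by
        rw [Nat.choose_symm_add]
        exact Nat.add_choose_mul_factorial_mul_factorial c j

/-- permutations without double descents that start with an ascent -/
noncomputable def up (n : ℕ) : ℕ := num n (AP 1 TT 0)

lemma a_eq (n : ℕ) : a n = num n (AP 1 TT 0) + num n (AP 1 TT 1) := by
  unfold a
  refine num_or (fun w => ?_) fun w => AP_excl (by omega)
  generalize Dn w = d
  have hs1 := noDD_shift (d := d) (m := 0)
  have hs2 := noDD_shift (d := d) (m := 1)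
  simp only [Nat.zero_add] at hs1 hs2
  unfold AP Beg TT
  have e1 : (∀ i, i < 0 → d (1 - 1 + i)) ↔ True := by
    simp
  have e2 : (∀ i, i < 1 → d (1 - 1 + i)) ↔ d 0 := by
    constructor
    · intro h; exact h 0 (by omega)
    · intro h i hi
      have : i = 0 := by omega
      rw [this]; exact h
  rw [e1, e2]
  show NoDD d ↔ ((True ∧ True) ∧ ¬ d 0 ∧ NoDD fun i => d (1 + 0 + i)) ∨
    ((True ∧ d 0) ∧ ¬ d 1 ∧ NoDD fun i => d (1 + 1 + i))
  have e3 : (fun i => d (1 + 0 + i)) = fun i => d (1 + i) := by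
    funext i; congr 1
  rw [e3, hs1]
  constructor
  · rintro ⟨h1, h2⟩
    by_cases h3 : d 0
    · have h4 : ¬ d 1 := fun h => h1 ⟨h3, h⟩
      exact Or.inr ⟨⟨trivial, h3⟩, h4, (hs2.1 h2).2⟩
    · exact Or.inl ⟨⟨trivial, trivial⟩, h3, h2⟩
  · rintro (⟨_, h1, h2⟩ | ⟨⟨_, h1⟩, h2, h3⟩)
    · exact ⟨fun h => h1 h.1, h2⟩
    · refine ⟨fun h => h2 h.2, ?_⟩
      rw [hs2]
      exact ⟨fun h => h2 h.1, h3⟩

lemma a_zero : a 0 = 1 := by
  unfold a num
  rw [Nat.card_eq_one_iff_unique]
  constructor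
  · infer_instance
  · exact ⟨⟨1, fun i h => by
      obtain ⟨⟨h1, _⟩, _⟩ := h
      omega⟩⟩

lemma num_DP_one {n j : ℕ} (hn : 1 + j ≤ n) :
    num n (DP 1 TT j) = n.choose (1 + j) * a (n - (1 + j)) := by
  rw [num_DP_eq le_rfl (TT_loc _) hn, xx_one, one_mul]

/-- the recurrence -/
theorem a_rec {n : ℕ} (hn : 1 ≤ n) :
    ∑ k ∈ range (n + 1), sg k * ((n.choose k * a (n - k) : ℕ) : ℤ) = 0 := by
  have h1 : (num n (DP 1 TT 0) : ℤ) = num n (AP 1 TT 0) + (num n (AP 1 TT 1) + num n (AP 1 TT 2)) := by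
    exact_mod_cast num_DP le_rfl n 0
  have h2 : (a n : ℤ) = num n (AP 1 TT 0) + num n (AP 1 TT 1) := by exact_mod_cast a_eq n
  have h3 := num_AP (k := 2) le_rfl (TT_loc 0) hn
  have h4 := num_DP_one (n := n) (j := 0) (by omega)
  have h5 : (a n : ℤ) - (n.choose 1 * a (n - 1) : ℕ) + num n (AP 1 TT 2) = 0 := by
    have : (num n (DP 1 TT 0) : ℤ) = (n.choose 1 * a (n - 1) : ℕ) := by exact_mod_cast h4
    rw [← this, h1, h2]; ring
  rw [h3] at h5
  have h6 : ∑ k ∈ range (n + 1), sg k * ((n.choose k * a (n - k) : ℕ) : ℤ) =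
      ∑ k ∈ range (3 * n + 3), if k ≤ n then sg k * ((n.choose k * a (n - k) : ℕ) : ℤ) else 0 := by
    rw [← Finset.sum_filter]
    apply Finset.sum_congr _ fun _ _ => rfl
    ext k
    rw [Finset.mem_filter, Finset.mem_range, Finset.mem_range]
    omega
  rw [h6, Finset.sum_range_succ', Finset.sum_range_succ', Finset.sum_range_succ']
  have h7 : ∀ k ∈ range (3 * n), (if k + 1 + 1 + 1 ≤ n then sg (k + 1 + 1 + 1) *
      ((n.choose (k + 1 + 1 + 1) * a (n - (k + 1 + 1 + 1)) : ℕ) : ℤ) else 0) =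
      sg k * (if 1 + (2 + k) ≤ n then
        ((n.choose (1 + (2 + k)) * (xx 1 TT (2 + k) * a (n - (1 + (2 + k)))) : ℕ) : ℤ) else 0) := by
    intro k _
    have e : k + 1 + 1 + 1 = 1 + (2 + k) := by ring
    rw [e]
    have e2 : sg (1 + (2 + k)) = sg k := by
      rw [show 1 + (2 + k) = k + 3 by ring, sg_add_three]
    rw [e2, xx_one, one_mul]
    split_ifs
    · rfl
    · rw [mul_zero]
  rw [Finset.sum_congr rfl h7]
  have s0 : sg 0 = 1 := rfl
  have s1 : sg (0 + 1) = -1 := rfl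
  have s2 : sg (0 + 1 + 1) = 0 := rfl
  rw [s0, s1, s2, if_pos (Nat.zero_le n), if_pos (show 0 + 1 ≤ n from hn)]
  simp only [zero_mul, ite_self, add_zero, one_mul, Nat.choose_zero_right, Nat.sub_zero]
  have h8 : (0 : ℕ) + 1 = 1 := rfl
  rw [h8]
  linarith

/-- the lower bound for `up` -/
lemma up_ge {n : ℕ} (hn : 2 ≤ n) : n.choose 1 * a (n - 1) ≤ up n + n.choose 2 * a (n - 2) := by
  have h1 := num_DP (c := 1) (Q := TT) le_rfl n 0
  have h2 := num_DP (c := 1) (Q := TT) le_rfl n 1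
  have h4 := num_DP_one (n := n) (j := 0) (by omega)
  have h5 := num_DP_one (n := n) (j := 1) (by omega)
  simp only [Nat.zero_add, Nat.add_zero, Nat.reduceAdd] at h1 h2 h4 h5
  unfold up
  rw [← h4, ← h5, h1, h2]
  omega

end Pool.Agent.X17.DD
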