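import Pool.Agent.X17.DD.Lim

/-!
# Double descent sets
-/

set_option autoImplicit false

namespace Pool.Agent.X17.DD

open Equiv Finset Filter Topology

/-- permutations with the double descents prescribed by `T` (`T i` for the pair `i`, `i + 1`) -/
def Ex (T : ℕ → Prop) (d : ℕ → Prop) : Prop := ∀ i, T i ↔ d i ∧ d (i + 1)

/-- the beginning -/
def QT (T : ℕ → Prop) (l : ℕ) (d : ℕ → Prop) : Prop := ∀ i, i ≤ l → (T i ↔ d i ∧ d (i + 1))

lemma QT_loc (T : ℕ → Prop) (l : ℕ) : Loc (l + 3 - 1) (QT T l) := by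
  intro d d' h
  unfold QT
  constructor
  · intro h1 i hi
    rw [h1 i hi, h i (by omega), h (i + 1) (by omega)]
  · intro h1 i hi
    rw [h1 i hi, h i (by omega), h (i + 1) (by omega)]

lemma Ex_iff {T : ℕ → Prop} {l : ℕ} (hl : T l) (hT : ∀ i, l < i → ¬ T i) (d : ℕ → Prop) :
    Ex T d ↔ AP (l + 3) (QT T l) 0 d := by
  unfold Ex AP Beg QT
  have e1 : l + 3 - 1 + 0 = l + 2 := by omega
  have e2 : (fun i => d (l + 3 + 0 + i)) = fun i => d (l + 3 + i) := rfl
  rw [e1, e2]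
  constructor
  · intro h
    have h1 := (h l).1 hl
    refine ⟨⟨fun i _ => h i, fun i hi => absurd hi (Nat.not_lt_zero _)⟩, fun h2 => ?_, fun i h2 => ?_⟩
    · exact hT (l + 1) (by omega) ((h (l + 1)).2 ⟨h1.2, h2⟩)
    · exact hT (l + 3 + i) (by omega) ((h (l + 3 + i)).2 h2)
  · rintro ⟨⟨h1, _⟩, h2, h3⟩ i
    by_cases hi : i ≤ l
    · exact h1 i hi
    · have h4 : ¬ T i := hT i (by omega)
      refine ⟨fun h => absurd h h4, fun h => ?_⟩
      exfalso
      rcases Nat.lt_or_ge i (l + 3) with h5 | h5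
      · have h6 : i = l + 1 ∨ i = l + 2 := by omega
        rcases h6 with h6 | h6
        · rw [h6] at h; exact h2 h.2
        · rw [h6] at h; exact h2 h.1
      · obtain ⟨k, rfl⟩ := Nat.exists_eq_add_of_le h5
        exact h3 k h

lemma pos_of_pos {c q : ℕ} (hc : 1 ≤ c) {Q : (ℕ → Prop) → Prop} (hQ : Loc (c - 1) Q)
    (h : 0 < num (c + 1 + q) (AP c Q 0)) : 0 < num (c + 1) (fun d => Q d ∧ ¬ d (c - 1)) := by
  have h1 : Loc (c + 1 - 1) (fun d => Q d ∧ ¬ d (c - 1)) := by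
    intro d d' h
    have h2 : Q d ↔ Q d' := hQ d d' fun i hi => h i (by omega)
    have h3 : d (c - 1) ↔ d' (c - 1) := h _ (by omega)
    simp only [h2, h3]
  have h2 := num_split (p := c + 1) (q := q)
    (P := fun d => (Q d ∧ ¬ d (c - 1)) ∧ TT (fun i => d (c + 1 + i))) h1
    (Ψ := TT) (fun w => Iff.rfl)
  have h3 : 0 < num (c + 1 + q) (fun d => (Q d ∧ ¬ d (c - 1)) ∧ TT (fun i => d (c + 1 + i))) := by
    refine lt_of_lt_of_le h (num_mono fun w => ?_)
    generalize Dn w = d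
    rintro ⟨⟨h4, _⟩, h5, _⟩
    exact ⟨⟨h4, h5⟩, trivial⟩
  rw [h2] at h3
  by_contra h4
  push Not at h4
  have h5 := Nat.le_zero.1 h4
  rw [h5, zero_mul, mul_zero] at h3
  exact lt_irrefl _ h3

/-- **Limits for all double descent sets.** -/
theorem lim_T (T : ℕ → Prop) (hfin : ∃ N, ∀ i, N ≤ i → ¬ T i)
    (hpos : ∀ᶠ n in atTop, 0 < num n (Ex T)) :
    ∃ K : ℝ, 0 < K ∧ Tendsto (fun n => (num n (Ex T) : ℝ) / n.factorial * x0 ^ n) atTop (𝓝 K) := by
  classical
  by_cases h0 : ∃ i, T i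
  · obtain ⟨N, hN⟩ := hfin
    obtain ⟨i0, hi0⟩ := h0
    have hlt : ∀ i, T i → i ≤ N := fun i hi => by
      by_contra hc
      push Not at hc
      exact hN i hc.le hi
    let l := Nat.findGreatest T N
    have hl : T l := Nat.findGreatest_spec (hlt i0 hi0) hi0
    have hT : ∀ i, l < i → ¬ T i := by
      intro i hi h
      exact absurd (Nat.le_findGreatest (hlt i h) h) (not_le.2 hi)
    have e : ∀ n, num n (Ex T) = num n (AP (l + 3) (QT T l) 0) := fun n =>
      num_congr fun w => Ex_iff hl hT _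
    obtain ⟨n, hn⟩ := (hpos.and (eventually_ge_atTop (l + 3 + 1))).exists
    obtain ⟨q, rfl⟩ := Nat.exists_eq_add_of_le hn.2
    have h1 := hn.1
    rw [e] at h1
    obtain ⟨K, hK0, hK⟩ := lim_pos (c := l + 3) (Q := QT T l) (by omega) (QT_loc T l)
      (pos_of_pos (by omega) (QT_loc T l) h1)
    refine ⟨K, hK0, ?_⟩
    simp only [e]
    exact hK
  · push Not at h0
    have e : ∀ n, num n (Ex T) = a n := fun n => num_congr fun w => by
      unfold Ex NoDD
      exact forall_congr' fun i => by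
        have := h0 i
        tauto
    obtain ⟨L, hL0, hL⟩ := u_tendsto
    refine ⟨L, hL0, ?_⟩
    simp only [e]
    exact hL

theorem ratio (S T : ℕ → Prop) (hS : ∃ N, ∀ i, N ≤ i → ¬ S i) (hT : ∃ N, ∀ i, N ≤ i → ¬ T i)
    (hS' : ∀ᶠ n in atTop, 0 < num n (Ex S)) (hT' : ∀ᶠ n in atTop, 0 < num n (Ex T)) :
    ∃ K : ℝ, 0 < K ∧ Tendsto (fun n => (num n (Ex S) : ℝ) / num n (Ex T)) atTop (𝓝 K) := by
  obtain ⟨K, hK0, hK⟩ := lim_T S hS hS'
  obtain ⟨L, hL0, hL⟩ := lim_T T hT hT'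
  refine ⟨K / L, div_pos hK0 hL0, ?_⟩
  refine (hK.div hL hL0.ne').congr fun n => ?_
  have h1 : (n.factorial : ℝ) ≠ 0 := by exact_mod_cast n.factorial_ne_zero
  have h2 : x0 ^ n ≠ 0 := pow_ne_zero _ x0_pos.ne'
  show (num n (Ex S) : ℝ) / n.factorial * x0 ^ n / ((num n (Ex T) : ℝ) / n.factorial * x0 ^ n) = _
  rw [mul_div_mul_right _ _ h2, div_div_div_cancel_right₀ h1]

/-- every descent word occurs -/
theorem exists_word (n : ℕ) (δ : ℕ → Prop) :
    ∃ w : Perm (Fin n), ∀ i, i + 1 < n → (Dn w i ↔ δ i) := by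
  classical
  let f : Fin n → ℤ := fun i => if i.1 = 0 then 0 else if δ (i.1 - 1) then -(i.1 : ℤ) else i.1
  have hf : ∀ i : Fin n, |f i| = i.1 := by
    intro i
    simp only [f]
    split_ifs with h1 h2
    · rw [h1]; rfl
    · rw [abs_neg]; exact abs_of_nonneg (by positivity)
    · exact abs_of_nonneg (by positivity)
  have hinj : Function.Injective f := by
    intro i j hij
    have h1 := hf i
    rw [hij, hf j] at h1
    exact Fin.ext (by exact_mod_cast h1.symm)
  let S := Finset.univ.image f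
  have hS : S.card = n := by
    rw [Finset.card_image_of_injective _ hinj, Finset.card_univ, Fintype.card_fin]
  let e := S.orderIsoOfFin hS
  let g : Fin n → Fin n := fun i => e.symm ⟨f i, Finset.mem_image_of_mem f (Finset.mem_univ i)⟩
  have hg : ∀ i j, g i < g j ↔ f i < f j := by
    intro i j
    simp only [g]
    rw [OrderIso.lt_iff_lt]
    rfl
  have hgi : Function.Injective g := by
    intro i j hij
    have h1 := e.symm.injective hij
    exact hinj (congrArg Subtype.val h1)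
  let w : Perm (Fin n) := Equiv.ofBijective g (Finite.injective_iff_bijective.1 hgi)
  refine ⟨w, fun i hi => ?_⟩
  have h1 : Dn w i ↔ f ⟨i + 1, hi⟩ < f ⟨i, by omega⟩ := by
    unfold Dn
    constructor
    · rintro ⟨h, h2⟩
      exact (hg _ _).1 h2
    · intro h2
      exact ⟨hi, (hg _ _).2 h2⟩
  rw [h1]
  have h2 : f ⟨i + 1, hi⟩ = if δ i then -((i : ℤ) + 1) else (i : ℤ) + 1 := by
    simp only [f, Nat.add_sub_cancel]
    rw [if_neg (by omega)]
    push_cast
    rfl
  have h3 := hf ⟨i, by omega⟩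
  have h4 : f ⟨i, by omega⟩ ≤ i := (le_abs_self _).trans (le_of_eq h3)
  have h5 : -(i : ℤ) ≤ f ⟨i, by omega⟩ := by
    have := neg_abs_le (f ⟨i, by omega⟩)
    rw [h3] at this
    exact this
  rw [h2]
  split_ifs with h
  · exact ⟨fun _ => h, fun _ => by omega⟩
  · exact ⟨fun h6 => by omega, fun h6 => absurd h6 h⟩

lemma single_pos (l : ℕ) {n : ℕ} (hn : l + 3 ≤ n) : 0 < num n (Ex (fun i => i = l)) := by
  obtain ⟨w, hw⟩ := exists_word n (fun i => i = l ∨ i = l + 1)
  refine num_pos_of w fun i => ?_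
  constructor
  · intro h
    rw [h]
    exact ⟨(hw l (by omega)).2 (Or.inl rfl), (hw (l + 1) (by omega)).2 (Or.inr rfl)⟩
  · rintro ⟨h1, h2⟩
    obtain ⟨h3, _⟩ := id h2
    have h4 := (hw i (by omega)).1 h1
    have h5 := (hw (i + 1) (by omega)).1 h2
    omega

end Pool.Agent.X17.DD
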