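import Mathlib

/-!
# Descent words of permutations and splitting of a permutation into two patterns
-/

set_option autoImplicit false

namespace Pool.Agent.X17.DD

open Equiv

/-- `Dn w i`: the (0-indexed) position `i` is a descent of `w`. -/
def Dn {n : ℕ} (w : Perm (Fin n)) (i : ℕ) : Prop :=
  ∃ h : i + 1 < n, w ⟨i + 1, h⟩ < w ⟨i, by omega⟩

/-- subsets of size `p` -/
abbrev Sub (p q : ℕ) : Type := {S : Finset (Fin (p + q)) // S.card = p}

lemma Sub.compl_card {p q : ℕ} (S : Sub p q) : (S.1ᶜ).card = q := by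
  rw [Finset.card_compl, S.2]; simp

/-- the permutation with the set `S` of the first `p` letters, the pattern `σ` of these letters and
the pattern `τ` of the others -/
noncomputable def glue {p q : ℕ} (x : Sub p q × Perm (Fin p) × Perm (Fin q)) :
    Perm (Fin (p + q)) :=
  (finSumFinEquiv.symm.trans (Equiv.sumCongr x.2.1 x.2.2)).trans
    (finSumEquivOfFinset x.1.2 x.1.compl_card)

lemma glue_left {p q : ℕ} (x : Sub p q × Perm (Fin p) × Perm (Fin q)) (i : Fin p) :
    glue x (Fin.castAdd q i) = x.1.1.orderEmbOfFin x.1.2 (x.2.1 i) := by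
  unfold glue
  simp

lemma glue_right {p q : ℕ} (x : Sub p q × Perm (Fin p) × Perm (Fin q)) (i : Fin q) :
    glue x (Fin.natAdd p i) = (x.1.1ᶜ).orderEmbOfFin x.1.compl_card (x.2.2 i) := by
  unfold glue
  simp

lemma glue_injective (p q : ℕ) : Function.Injective (glue (p := p) (q := q)) := by
  intro x y h
  have hS : ∀ z : Sub p q × Perm (Fin p) × Perm (Fin q), ∀ a : Fin (p + q),
      a ∈ z.1.1 ↔ ∃ i : Fin p, glue z (Fin.castAdd q i) = a := by
    intro z a
    constructor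
    · intro ha
      have h1 : a ∈ Set.range (z.1.1.orderEmbOfFin z.1.2) := by
        rw [Finset.range_orderEmbOfFin]; exact ha
      obtain ⟨j, hj⟩ := h1
      refine ⟨z.2.1.symm j, ?_⟩
      rw [glue_left, Equiv.apply_symm_apply, hj]
    · rintro ⟨i, rfl⟩
      rw [glue_left]
      exact Finset.orderEmbOfFin_mem _ _ _
  obtain ⟨S, σ, τ⟩ := x
  obtain ⟨S', σ', τ'⟩ := y
  have e1 : S = S' := by
    apply Subtype.ext
    ext a
    rw [hS (S, σ, τ) a, hS (S', σ', τ') a, h]
  subst e1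
  have e2 : σ = σ' := by
    ext i
    have h1 := glue_left (S, σ, τ) i
    rw [h, glue_left] at h1
    have h2 := (S.1.orderEmbOfFin S.2).injective h1
    exact congrArg Fin.val h2.symm
  have e3 : τ = τ' := by
    ext i
    have h1 := glue_right (S, σ, τ) i
    rw [h, glue_right] at h1
    have h2 := ((S.1ᶜ).orderEmbOfFin S.compl_card).injective h1
    exact congrArg Fin.val h2.symm
  rw [e2, e3]

lemma glue_bijective (p q : ℕ) : Function.Bijective (glue (p := p) (q := q)) := by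
  rw [Fintype.bijective_iff_injective_and_card]
  refine ⟨glue_injective p q, ?_⟩
  rw [Fintype.card_prod, Fintype.card_prod, Fintype.card_perm, Fintype.card_perm,
    Fintype.card_perm, Fintype.card_fin, Fintype.card_fin, Fintype.card_fin]
  have h1 : Fintype.card (Sub p q) = (p + q).choose p := by
    rw [Fintype.card_finset_len, Fintype.card_fin]
  rw [h1, ← mul_assoc, Nat.choose_symm_add]
  exact Nat.add_choose_mul_factorial_mul_factorial p q

/-- descents of the first part -/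
lemma dn_left {p q : ℕ} (x : Sub p q × Perm (Fin p) × Perm (Fin q)) {i : ℕ} (hi : i + 1 < p) :
    Dn (glue x) i ↔ Dn x.2.1 i := by
  have e1 : ∀ (j : ℕ) (hj : j < p) (hj' : j < p + q),
      glue x ⟨j, hj'⟩ = x.1.1.orderEmbOfFin x.1.2 (x.2.1 ⟨j, hj⟩) := by
    intro j hj hj'
    exact glue_left x ⟨j, hj⟩
  unfold Dn
  constructor
  · rintro ⟨h, h2⟩
    refine ⟨hi, ?_⟩
    rw [e1 _ hi, e1 _ (by omega)] at h2
    exact (x.1.1.orderEmbOfFin x.1.2).lt_iff_lt.1 h2
  · rintro ⟨h, h2⟩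
    refine ⟨by omega, ?_⟩
    rw [e1 _ hi, e1 _ (by omega)]
    exact (x.1.1.orderEmbOfFin x.1.2).lt_iff_lt.2 h2

/-- descents of the second part -/
lemma dn_right {p q : ℕ} (x : Sub p q × Perm (Fin p) × Perm (Fin q)) (i : ℕ) :
    Dn (glue x) (p + i) ↔ Dn x.2.2 i := by
  have e1 : ∀ (j : ℕ) (hj : j < q) (hj' : p + j < p + q),
      glue x ⟨p + j, hj'⟩ = (x.1.1ᶜ).orderEmbOfFin x.1.compl_card (x.2.2 ⟨j, hj⟩) := by
    intro j hj hj'
    exact glue_right x ⟨j, hj⟩
  unfold Dn
  constructor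
  · rintro ⟨h, h2⟩
    refine ⟨by omega, ?_⟩
    have h3 := e1 (i + 1) (by omega) (by omega)
    have h4 : (⟨p + i + 1, h⟩ : Fin (p + q)) = ⟨p + (i + 1), by omega⟩ := by
      ext; simp; omega
    rw [h4, h3, e1 i (by omega) (by omega)] at h2
    exact ((x.1.1ᶜ).orderEmbOfFin x.1.compl_card).lt_iff_lt.1 h2
  · rintro ⟨h, h2⟩
    refine ⟨by omega, ?_⟩
    have h3 := e1 (i + 1) (by omega) (by omega)
    have h4 : (⟨p + i + 1, by omega⟩ : Fin (p + q)) = ⟨p + (i + 1), by omega⟩ := by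
      ext; simp; omega
    rw [h4, h3, e1 i (by omega) (by omega)]
    exact ((x.1.1ᶜ).orderEmbOfFin x.1.compl_card).lt_iff_lt.2 h2

/-- the counting lemma -/
theorem card_glue {p q : ℕ} (R : Perm (Fin (p + q)) → Prop) (Φ : Perm (Fin p) → Prop)
    (Ψ : Perm (Fin q) → Prop) (h : ∀ x, R (glue x) ↔ Φ x.2.1 ∧ Ψ x.2.2) :
    Nat.card {w // R w} = (p + q).choose p * (Nat.card {σ // Φ σ} * Nat.card {τ // Ψ τ}) := by
  have e1 : {x : Sub p q × Perm (Fin p) × Perm (Fin q) // Φ x.2.1 ∧ Ψ x.2.2} ≃ {w // R w} :=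
    (Equiv.ofBijective _ (glue_bijective p q)).subtypeEquiv fun x => by
      rw [Equiv.ofBijective_apply, h]
  have e2 : {x : Sub p q × Perm (Fin p) × Perm (Fin q) // Φ x.2.1 ∧ Ψ x.2.2} ≃
      Sub p q × {σ // Φ σ} × {τ // Ψ τ} :=
    { toFun := fun x => (x.1.1, ⟨x.1.2.1, x.2.1⟩, ⟨x.1.2.2, x.2.2⟩)
      invFun := fun y => ⟨(y.1, y.2.1.1, y.2.2.1), y.2.1.2, y.2.2.2⟩
      left_inv := fun x => rfl
      right_inv := fun y => rfl }
  rw [← Nat.card_congr e1, Nat.card_congr e2, Nat.card_prod, Nat.card_prod]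
  congr 1
  rw [Nat.card_eq_fintype_card, Fintype.card_finset_len, Fintype.card_fin]

end Pool.Agent.X17.DD
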